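import Pool.Agent.Q187.CHC.CutV

/-! # CH10: points of large multiplicity on the line, emptiness. -/

set_option autoImplicit false

namespace Q187.CHC

open Finset Polynomial Pool.Agent.H200C Pool.Agent.TH641.UM

theorem St_finite (b σ : ℤ) (H : ℕ) : (St b σ H).Finite := by
  have h : St b σ H ⊆ (fun p : ℕ × ℕ => (p.2, p.1)) ''
      (↑((Finset.range H).sigma fun k => Finset.range ((b - σ * k).toNat + 1)) :
        Set (Σ _ : ℕ, ℕ)).image (fun q => (q.1, q.2)) := by
    rintro ⟨a, k⟩ ⟨h1, h2⟩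
    simp only at h1 h2
    refine ⟨(k, a), ⟨⟨k, a⟩, ?_, rfl⟩, rfl⟩
    rw [Finset.mem_coe, Finset.mem_sigma, Finset.mem_range, Finset.mem_range]
    refine ⟨h1, ?_⟩
    show a < (b - σ * k).toNat + 1
    omega
  exact (((Finset.finite_toSet _).image _).image _).subset h

/-- The factor of row `k`. -/
noncomputable def PP {K : Type} [Field K] {n : ℕ} (ξ : Fin n → K) (a : Fin n → ℕ) (k : ℕ) : K[X] :=
  ∏ i, (X - C (ξ i)) ^ (a i - k)

theorem PP_ne_zero {K : Type} [Field K] {n : ℕ} (ξ : Fin n → K) (a : Fin n → ℕ) (k : ℕ) :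
    PP ξ a k ≠ 0 :=
  Finset.prod_ne_zero_iff.2 fun _ _ => pow_ne_zero _ (X_sub_C_ne_zero _)

theorem PP_natDegree {K : Type} [Field K] {n : ℕ} (ξ : Fin n → K) (a : Fin n → ℕ) (k : ℕ) :
    (PP ξ a k).natDegree = ∑ i, (a i - k) := by
  unfold PP
  rw [natDegree_prod _ _ fun _ _ => pow_ne_zero _ (X_sub_C_ne_zero _)]
  refine Finset.sum_congr rfl fun i _ => ?_
  rw [natDegree_pow, natDegree_X_sub_C, mul_one]

theorem PP_dvd {K : Type} [Field K] {n : ℕ} {ξ : Fin n → K} (hξ : Function.Injective ξ)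
    (a : Fin n → ℕ) (k : ℕ) {f : K[X]} (h : ∀ i, (X - C (ξ i)) ^ (a i - k) ∣ f) :
    PP ξ a k ∣ f := by
  unfold PP
  refine Finset.prod_dvd_of_coprime ?_ fun i _ => h i
  intro i _ j _ hij
  exact (pairwise_coprime_X_sub_C hξ hij).pow

theorem PP_eval {K : Type} [Field K] {n : ℕ} (ξ : Fin n → K) (a : Fin n → ℕ) (k : ℕ) {x : K}
    (h : ∀ i, x ≠ ξ i) : (PP ξ a k).eval x ≠ 0 := by
  unfold PP
  rw [eval_prod]
  refine Finset.prod_ne_zero_iff.2 fun i _ => ?_
  rw [eval_pow, eval_sub, eval_X, eval_C]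
  exact pow_ne_zero _ (sub_ne_zero.2 (h i))

theorem PP_coprime {K : Type} [Field K] {n : ℕ} (ξ : Fin n → K) (a : Fin n → ℕ) (k : ℕ) {x : K}
    (h : ∀ i, x ≠ ξ i) (m : ℕ) : IsCoprime ((X - C x) ^ m) (PP ξ a k) := by
  unfold PP
  refine IsCoprime.prod_right fun i _ => IsCoprime.pow ?_
  exact isCoprime_X_sub_C_of_isUnit_sub (sub_ne_zero.2 (h i)).isUnit

theorem PP_mul {K : Type} [Field K] {n : ℕ} (ξ : Fin n → K) (a : Fin n → ℕ) {k : ℕ}
    (h : ∀ i, k ≤ a i) : (∏ i, (X - C (ξ i))) ^ k * PP ξ a k = PP ξ a 0 := by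
  unfold PP
  rw [← Finset.prod_pow, ← Finset.prod_mul_distrib]
  refine Finset.prod_congr rfl fun i _ => ?_
  rw [← pow_add, Nat.sub_zero, Nat.add_sub_cancel' (h i)]

theorem sum_fam (A : Multiset ℕ) : ∑ i, fam A i = A.sum := by
  rw [← Pool.Agent.TH2.NU.ms_sum_val, ms_fam]

theorem fam_mem (A : Multiset ℕ) (i : Fin A.toList.length) : fam A i ∈ A := by
  rw [← Multiset.mem_toList]
  exact List.get_mem _ _

theorem sum_fam_sub (A : Multiset ℕ) {k : ℕ} (h : ∀ a ∈ A, k ≤ a) :
    ((∑ i, (fam A i - k) : ℕ) : ℤ) = (A.sum : ℕ) - (A.card : ℕ) * k := by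
  have h1 : ∑ i, (fam A i - k) + A.card * k = A.sum := by
    rw [← sum_fam A]
    have h2 : A.card * k = ∑ _i : Fin A.toList.length, k := by
      rw [Finset.sum_const, Finset.card_univ, Fintype.card_fin, Multiset.length_toList, smul_eq_mul]
    rw [h2, ← Finset.sum_add_distrib]
    exact Finset.sum_congr rfl fun i _ => Nat.sub_add_cancel (h _ (fam_mem A i))
  have h3 := congrArg (fun n : ℕ => (n : ℤ)) h1
  simp only [Nat.cast_add, Nat.cast_mul] at h3
  linarith

/-- The rows of a polynomial in a strip. -/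
theorem row_degree {K : Type} [Field K] {b σ : ℤ} {H : ℕ} {f : K[X][X]} (hf : In (St b σ H) f)
    {k : ℕ} (h : f.coeff k ≠ 0) : k < H ∧ ((f.coeff k).natDegree : ℤ) + σ * k ≤ b := by
  have h1 := hf (f.coeff k).natDegree k (by
    rw [coeff_natDegree]
    exact leadingCoeff_ne_zero.2 h)
  exact h1

theorem absE : S_AbsE := by
  intro hV hG hE hM A V M b σ H hA h
  classical
  obtain ⟨K, _, _, s, hs⟩ := hE (Fin A.toList.length ⊕
    (Fin V.toList.length ⊕ Fin M.toList.length × Fin 2))
  have hinj := hG (St_finite _ _ _) h (s ∘ Sum.inr) (hs.comp _ Sum.inr_injective)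
  simp only [Function.comp_apply] at hinj
  set ξ : Fin A.toList.length → K := fun i => s (Sum.inl i) with hξ
  have hsinj : Function.Injective s := hs.injective
  have hξi : Function.Injective ξ := fun i j hij => Sum.inl_injective (hsinj hij)
  have hη : ∀ (j : Fin V.toList.length) (i : Fin A.toList.length),
      s (Sum.inr (Sum.inl j)) ≠ ξ i := by
    intro j i hij
    have := hsinj hij
    simp at this
  have hx : ∀ (j : Fin M.toList.length) (i : Fin A.toList.length),
      s (Sum.inr (Sum.inr (j, 0))) ≠ ξ i := by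
    intro j i hij
    have := hsinj hij
    simp at this
  have hEm : EmB (Sum.elim (fam A) (fam V)) (fam M) (St b σ H) := by
    refine ⟨K, inferInstance, inferInstance, Sum.elim ξ fun j => s (Sum.inr (Sum.inl j)),
      fun j => s (Sum.inr (Sum.inr (j, 0))),
      fun j => s (Sum.inr (Sum.inr (j, 1))) *
        (∏ i, (X - C (ξ i))).eval (s (Sum.inr (Sum.inr (j, 0)))), ?_⟩
    intro f hf hVO
    have hfH : ∀ k, H ≤ k → f.coeff k = 0 := by
      intro k hk
      by_contra hne
      have := (row_degree hf hne).1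
      omega
    have hdvd : ∀ k, k < H → PP ξ (fam A) k ∣ f.coeff k := by
      intro k hk
      refine PP_dvd hξi _ _ fun i => ?_
      have h1 := hVO (Sum.inl (Sum.inl i))
      simp only [Sum.elim_inl] at h1
      rw [hV.rows0] at h1
      exact h1 k (lt_of_lt_of_le hk (hA _ (fam_mem A i)))
    have hg : ∀ k, ∃ q : K[X], f.coeff k = PP ξ (fam A) k * q ∧ (H ≤ k → q = 0) := by
      intro k
      by_cases hk : k < H
      · obtain ⟨q, hq⟩ := hdvd k hk
        exact ⟨q, hq, fun h => by omega⟩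
      · exact ⟨0, by rw [hfH k (by omega), mul_zero], fun _ => rfl⟩
    choose q hq hq0 using hg
    set G : K[X][X] := ∑ k ∈ Finset.range H, C (q k) * X ^ k with hG'
    have hGc : ∀ k, G.coeff k = q k := by
      intro k
      rw [hG', finsetSum_coeff]
      by_cases hk : k < H
      · rw [Finset.sum_eq_single k]
        · simp
        · intro j _ hj
          rw [coeff_C_mul, coeff_X_pow, if_neg (Ne.symm hj), mul_zero]
        · intro h
          exact absurd (Finset.mem_range.2 hk) h
      · rw [hq0 k (by omega)]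
        refine Finset.sum_eq_zero fun j hj => ?_
        rw [Finset.mem_range] at hj
        rw [coeff_C_mul, coeff_X_pow, if_neg (by omega), mul_zero]
    have hGz : G = 0 := by
      refine hinj G ?_ ?_
      · intro a k hak
        rw [hGc] at hak
        have hqk : q k ≠ 0 := by
          intro h0
          rw [h0] at hak
          exact hak (coeff_zero a)
        have hfk : f.coeff k ≠ 0 := by
          rw [hq k]
          exact mul_ne_zero (PP_ne_zero _ _ _) hqk
        obtain ⟨hk, hdeg⟩ := row_degree hf hfk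
        rw [hq k, natDegree_mul (PP_ne_zero _ _ _) hqk, PP_natDegree, Nat.cast_add,
          sum_fam_sub A (fun a ha => le_trans hk.le (hA a ha))] at hdeg
        have ha := le_natDegree_of_ne_zero hak
        refine ⟨hk, ?_⟩
        show (a : ℤ) + (σ - (A.card : ℕ)) * k ≤ b - (A.sum : ℕ)
        have ha' : (a : ℤ) ≤ ((q k).natDegree : ℤ) := by exact_mod_cast ha
        linarith
      · rintro (i | j)
        · have h1 := hVO (Sum.inl (Sum.inr i))
          simp only [Sum.elim_inl, Sum.elim_inr] at h1 ⊢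
          rw [hV.rows0] at h1 ⊢
          intro k hk
          rw [hGc]
          have h2 := h1 k hk
          rw [hq k] at h2
          exact (PP_coprime ξ (fam A) k (hη i) _).dvd_of_dvd_mul_left h2
        · have h1 := hVO (Sum.inr j)
          simp only [Sum.elim_inr] at h1 ⊢
          have h2 := hV.substY (∏ i, (X - C (ξ i))) h1
          refine hV.mulC (PP ξ (fam A) 0) (PP_eval ξ _ 0 (hx j)) ?_
          convert h2 using 1
          ext1 k
          rw [coeff_C_mul, hGc, comp_C_mul_X_coeff]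
          by_cases hk : k < H
          · rw [hq k, ← PP_mul ξ (fam A) (k := k) fun i => le_trans hk.le (hA _ (fam_mem A i))]
            ring
          · rw [hq0 k (by omega), hfH k (by omega), mul_zero, zero_mul]
    ext1 k
    rw [hq k, ← hGc k, hGz, coeff_zero, mul_zero]
  refine (hM ?_ rfl).1 hEm
  rw [ms_sum, ms_fam, ms_fam, ms_fam]

end Q187.CHC
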