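import Pool.Agent.Q187.CHC.Xch

/-! # CH8: a point on the line tends to the corner. -/

set_option autoImplicit false

namespace Q187.CHC

open Finset Polynomial Pool.Agent.H200C Pool.Agent.TH641.UM

theorem ms_fam (W : Multiset ℕ) : ms (fam W) = W := exists_fam W

theorem charZero_frac (K : Type) [Field K] [CharZero K] : CharZero (FractionRing K[X]) := by
  have h : Function.Injective (algebraMap K (FractionRing K[X])) := by
    rw [IsScalarTower.algebraMap_eq K K[X] (FractionRing K[X]), RingHom.coe_comp]
    exact (IsFractionRing.injective K[X] (FractionRing K[X])).comp C_injective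
  exact charZero_of_injective_algebraMap h

/-- The value at `t = 0` keeps the exponents. -/
theorem in_spec {K : Type} [Field K] {S : Set (ℕ × ℕ)} {f : K[X][X][X]} (hf : In S f) :
    In S (f.map (mapRingHom (evalRingHom (0 : K)))) := by
  intro a b h
  refine hf a b fun h0 => h ?_
  rw [coeff_map, coe_mapRingHom, coeff_map, h0, map_zero]

/-- The value at `t = 0` keeps the multiplicities. -/
theorem vo_spec (hV : VOF) {K : Type} [Field K] {m : ℕ} {x y : K[X]} {f : K[X][X][X]}
    (hf : VO m x y f) :
    VO m (x.eval 0) (y.eval 0) (f.map (mapRingHom (evalRingHom (0 : K)))) := by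
  intro a k hak
  have h := hV.map (evalRingHom (0 : K)) f x y a k
  rw [coe_evalRingHom] at h
  rw [h, hf a k hak, eval_zero]

/-- The corner. -/
def corner (v : ℕ) : Finset (ℕ × ℕ) := (Finset.range v).biUnion fun n => Finset.HasAntidiagonal.antidiagonal n

theorem mem_corner (v : ℕ) (p : ℕ × ℕ) : p ∈ corner v ↔ p.1 + p.2 < v := by
  unfold corner
  rw [Finset.mem_biUnion]
  constructor
  · rintro ⟨n, hn, h⟩
    rw [Finset.HasAntidiagonal.mem_antidiagonal] at h
    rw [Finset.mem_range] at hn
    omega
  · intro h
    exact ⟨p.1 + p.2, Finset.mem_range.2 h, Finset.HasAntidiagonal.mem_antidiagonal.2 rfl⟩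

theorem card_corner (v : ℕ) : (corner v).card = (v + 1).choose 2 := by
  unfold corner
  rw [Finset.card_biUnion]
  · induction v with
    | zero => simp
    | succ v ih =>
      have h1 : (v + 1 + 1).choose 2 = (v + 1).choose 1 + (v + 1).choose 2 :=
        Nat.choose_succ_succ' (v + 1) 1
      rw [Finset.sum_range_succ, ih, Finset.Nat.card_antidiagonal, h1, Nat.choose_one_right]
      omega
  · intro a _ b _ hab
    rw [Function.onFun, Finset.disjoint_left]
    intro p hp hp'
    rw [Finset.HasAntidiagonal.mem_antidiagonal] at hp hp'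
    exact hab (by omega)

theorem block1 (hV : VOF) (hG : GenB) (hE : Exi) (hD : DegE) (hM : Ms) (v : ℕ)
    (W M : Multiset ℕ) (S : Set (ℕ × ℕ)) (hS : S.Finite)
    (h : EB W M {p | p ∈ S ∧ v ≤ p.1 + p.2}) : EB ({v} + W) M S := by
  obtain ⟨K, _, _, s, hs⟩ := hE (Fin W.toList.length ⊕ Fin M.toList.length × Fin 2)
  have hinj := hG (hS.subset fun p hp => hp.1) h s hs
  have h1 : EmB (Sum.elim (fun _ : Unit => v) (fam W)) (fam M) S := by
    refine ⟨FractionRing K[X], inferInstance, charZero_frac K,
      Sum.elim (fun _ => algebraMap K[X] _ X) (fun i => algebraMap K[X] _ (C (s (Sum.inl i)))),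
      fun j => algebraMap K[X] _ (C (s (Sum.inr (j, 0)))),
      fun j => algebraMap K[X] _ (C (s (Sum.inr (j, 1)))), ?_⟩
    have h2 := hD (K := K) (Sum.elim (Sum.elim (fun _ : Unit => v) (fam W)) (fam M))
      (Sum.elim (Sum.elim (fun _ => X) (fun i => C (s (Sum.inl i)))) fun j => C (s (Sum.inr (j, 0))))
      (Sum.elim (fun _ => 0) fun j => C (s (Sum.inr (j, 1)))) S hS ?_
    · have e1 : (Sum.elim (Sum.elim (fun _ => algebraMap K[X] (FractionRing K[X]) X)
          (fun i => algebraMap K[X] (FractionRing K[X]) (C (s (Sum.inl i)))))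
          fun j => algebraMap K[X] (FractionRing K[X]) (C (s (Sum.inr (j, 0)))) :
          (Unit ⊕ Fin W.toList.length) ⊕ Fin M.toList.length → FractionRing K[X]) =
          fun i => algebraMap K[X] (FractionRing K[X]) (Sum.elim (Sum.elim (fun _ => X)
            (fun i => C (s (Sum.inl i)))) (fun j => C (s (Sum.inr (j, 0)))) i) := by
        funext i
        rcases i with (i | i) | i <;> rfl
      have e2 : (Sum.elim (fun _ => 0)
          fun j => algebraMap K[X] (FractionRing K[X]) (C (s (Sum.inr (j, 1)))) :
          (Unit ⊕ Fin W.toList.length) ⊕ Fin M.toList.length → FractionRing K[X]) =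
          fun i => algebraMap K[X] (FractionRing K[X]) (Sum.elim (fun _ => 0)
            (fun j => C (s (Sum.inr (j, 1)))) i) := by
        funext i
        rcases i with i | i
        · exact (map_zero _).symm
        · rfl
      rw [← e1, ← e2] at h2
      exact h2
    · intro f hf hVO
      refine hinj _ ?_ ?_
      · intro a b hab
        refine ⟨in_spec hf a b hab, ?_⟩
        have h3 := vo_spec hV (hVO (Sum.inl (Sum.inl ())))
        simp only [Sum.elim_inl, eval_X, eval_zero] at h3
        rw [hV.corner] at h3
        by_contra hlt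
        exact hab (h3 a b (by simpa using hlt))
      · rintro (i | j)
        · have h3 := vo_spec hV (hVO (Sum.inl (Sum.inr i)))
          simpa using h3
        · have h3 := vo_spec hV (hVO (Sum.inr j))
          simpa using h3
  refine (hM ?_ rfl).1 h1
  rw [ms_sum, ms_fam, ms_fam, ms_const]
  simp

theorem block : S_Block := by
  intro hV hG hE hD hM
  refine ⟨block1 hV hG hE hD hM, ?_⟩
  rintro v W M S hS ⟨T, hTS, hTc, hT⟩
  have hdisj : Disjoint T (corner v) := by
    rw [Finset.disjoint_left]
    intro p hp hp'
    rw [mem_corner] at hp'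
    have := (hTS (Finset.mem_coe.2 hp)).2
    omega
  refine ⟨T ∪ corner v, ?_, ?_, ?_⟩
  · intro p hp
    rw [Finset.coe_union] at hp
    rcases hp with hp | hp
    · exact (hTS hp).1
    · exact hS p ((mem_corner v p).1 (Finset.mem_coe.1 hp))
  · rw [Finset.card_union_of_disjoint hdisj, hTc, card_corner, Pool.Agent.TH2.NU.condM_add,
      Pool.Agent.TH2.NU.condM_single]
    ring
  · refine block1 hV hG hE hD hM v W M _ (Finset.finite_toSet _) ?_
    convert hT using 1
    ext p
    simp only [Finset.coe_union, Set.mem_ofPred_eq, Set.mem_union, Finset.mem_coe, mem_corner]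
    constructor
    · rintro ⟨hp | hp, h⟩
      · exact hp
      · omega
    · intro hp
      exact ⟨Or.inl hp, (hTS (Finset.mem_coe.2 hp)).2⟩

end Q187.CHC
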