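import Pool.Agent.Q187.CHC.Block

/-! # CH9: cutting by a vertical line. -/

set_option autoImplicit false

namespace Q187.CHC

open Finset Polynomial Pool.Agent.H200C Pool.Agent.TH641.UM

theorem Inj_mono {R : Type} [CommRing R] {ι : Type} {m : ι → ℕ} {x y : ι → R} {S S' : Set (ℕ × ℕ)}
    (h : S ⊆ S') (hI : Inj R m x y S') : Inj R m x y S :=
  fun f hf hV => hI f (fun a b hab => h (hf a b hab)) hV

theorem EB_mono {W M : Multiset ℕ} {S S' : Set (ℕ × ℕ)} (h : S ⊆ S') (hE : EB W M S') :
    EB W M S := by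
  obtain ⟨K, i1, i2, ξ, x, y, hI⟩ := hE
  exact ⟨K, i1, i2, ξ, x, y, Inj_mono h hI⟩

theorem CC_dvd_iff {R : Type} [CommRing R] (r : R) (f : R[X][X]) :
    C (C r) ∣ f ↔ ∀ a b : ℕ, r ∣ (f.coeff b).coeff a := by
  rw [C_dvd_iff_dvd_coeff]
  constructor
  · intro h a b
    exact (C_dvd_iff_dvd_coeff _ _).1 (h b) a
  · intro h b
    exact (C_dvd_iff_dvd_coeff _ _).2 fun a => h a b

theorem coeff_CC_mul {R : Type} [CommRing R] (r : R) (f : R[X][X]) (a b : ℕ) :
    ((C (C r) * f).coeff b).coeff a = r * (f.coeff b).coeff a := by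
  rw [coeff_C_mul, coeff_C_mul]

/-- Removing a power of `t`. -/
theorem vo_smul (hV : VOF) {R : Type} [CommRing R] [IsDomain R] {r : R} (hr : r ≠ 0) {m : ℕ}
    {x y : R} {f : R[X][X]} (h : VO m x y (C (C r) * f)) : VO m x y f := by
  intro a k hak
  have h1 := h a k hak
  rw [hV.smul] at h1
  exact (mul_eq_zero.1 h1).resolve_left hr

theorem cutV1 (hV : VOF) (hG : GenB) (hE : Exi) (hD : DegE) (hM : Ms) (c : ℕ)
    (W1 W2 M1 M2 : Multiset ℕ) (S S1 S2 : Set (ℕ × ℕ)) (hS : S.Finite)
    (hS1 : ∀ p ∈ S, p.1 < c → p ∈ S1) (hS2 : ∀ p ∈ S, c ≤ p.1 → (p.1 - c, p.2) ∈ S2)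
    (h1 : EB W1 M1 S1) (h2 : EB W2 M2 S2) : EB (W1 + W2) (M1 + M2) S := by
  classical
  -- finite subsets
  have hT1 : EB W1 M1 {p | p ∈ S ∧ p.1 < c} := EB_mono (fun p hp => hS1 p hp.1 hp.2) h1
  have hT2 : EB W2 M2 ((fun p : ℕ × ℕ => (p.1 - c, p.2)) '' {p | p ∈ S ∧ c ≤ p.1}) := by
    refine EB_mono ?_ h2
    rintro _ ⟨p, hp, rfl⟩
    exact hS2 p hp.1 hp.2
  have hf1 : {p | p ∈ S ∧ p.1 < c}.Finite := hS.subset fun p hp => hp.1
  have hf2 : ((fun p : ℕ × ℕ => (p.1 - c, p.2)) '' {p | p ∈ S ∧ c ≤ p.1}).Finite :=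
    (hS.subset fun p hp => hp.1).image _
  obtain ⟨K, _, _, s, hs⟩ := hE ((Fin W1.toList.length ⊕ Fin M1.toList.length × Fin 2) ⊕
    (Fin W2.toList.length ⊕ Fin M2.toList.length × Fin 2))
  have hinj1 := hG hf1 hT1 (s ∘ Sum.inl) (hs.comp _ Sum.inl_injective)
  have hinj2 := hG hf2 hT2 (s ∘ Sum.inr) (hs.comp _ Sum.inr_injective)
  simp only [Function.comp_apply] at hinj1 hinj2
  have hEm : EmB (Sum.elim (fam W1) (fam W2)) (Sum.elim (fam M1) (fam M2)) S := by
    refine ⟨FractionRing K[X], inferInstance, charZero_frac K,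
      Sum.elim (fun i => algebraMap K[X] _ (X * C (s (Sum.inl (Sum.inl i)))))
        (fun i => algebraMap K[X] _ (C (s (Sum.inr (Sum.inl i))))),
      Sum.elim (fun j => algebraMap K[X] _ (X * C (s (Sum.inl (Sum.inr (j, 0))))))
        (fun j => algebraMap K[X] _ (C (s (Sum.inr (Sum.inr (j, 0)))))),
      Sum.elim (fun j => algebraMap K[X] _ (C (s (Sum.inl (Sum.inr (j, 1))))))
        (fun j => algebraMap K[X] _ (C (s (Sum.inr (Sum.inr (j, 1)))))), ?_⟩
    have hd := hD (K := K)
      (Sum.elim (Sum.elim (fam W1) (fam W2)) (Sum.elim (fam M1) (fam M2)))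
      (Sum.elim (Sum.elim (fun i => X * C (s (Sum.inl (Sum.inl i))))
        (fun i => C (s (Sum.inr (Sum.inl i)))))
        (Sum.elim (fun j => X * C (s (Sum.inl (Sum.inr (j, 0)))))
        (fun j => C (s (Sum.inr (Sum.inr (j, 0)))))))
      (Sum.elim (fun _ => 0) (Sum.elim (fun j => C (s (Sum.inl (Sum.inr (j, 1)))))
        (fun j => C (s (Sum.inr (Sum.inr (j, 1))))))) S hS ?_
    · have e1 : (Sum.elim (Sum.elim
          (fun i => algebraMap K[X] (FractionRing K[X]) (X * C (s (Sum.inl (Sum.inl i)))))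
          (fun i => algebraMap K[X] (FractionRing K[X]) (C (s (Sum.inr (Sum.inl i))))))
          (Sum.elim (fun j => algebraMap K[X] (FractionRing K[X])
            (X * C (s (Sum.inl (Sum.inr (j, 0))))))
          (fun j => algebraMap K[X] (FractionRing K[X]) (C (s (Sum.inr (Sum.inr (j, 0))))))) :
          (Fin W1.toList.length ⊕ Fin W2.toList.length) ⊕
            (Fin M1.toList.length ⊕ Fin M2.toList.length) → FractionRing K[X]) =
          fun i => algebraMap K[X] (FractionRing K[X]) (Sum.elim (Sum.elim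
            (fun i => X * C (s (Sum.inl (Sum.inl i)))) (fun i => C (s (Sum.inr (Sum.inl i)))))
            (Sum.elim (fun j => X * C (s (Sum.inl (Sum.inr (j, 0)))))
            (fun j => C (s (Sum.inr (Sum.inr (j, 0)))))) i) := by
        funext i
        rcases i with (i | i) | (i | i) <;> rfl
      have e2 : (Sum.elim (fun _ => 0)
          (Sum.elim (fun j => algebraMap K[X] (FractionRing K[X]) (C (s (Sum.inl (Sum.inr (j, 1))))))
          (fun j => algebraMap K[X] (FractionRing K[X]) (C (s (Sum.inr (Sum.inr (j, 1))))))) :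
          (Fin W1.toList.length ⊕ Fin W2.toList.length) ⊕
            (Fin M1.toList.length ⊕ Fin M2.toList.length) → FractionRing K[X]) =
          fun i => algebraMap K[X] (FractionRing K[X]) (Sum.elim (fun _ => 0)
            (Sum.elim (fun j => C (s (Sum.inl (Sum.inr (j, 1)))))
            (fun j => C (s (Sum.inr (Sum.inr (j, 1)))))) i) := by
        funext i
        rcases i with i | (i | i)
        · exact (map_zero _).symm
        · rfl
        · rfl
      rw [← e1, ← e2] at hd
      exact hd
    · intro f hf hVO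
      by_contra hne
      -- the exponents of the value at zero
      have hA : ∃ a b : ℕ, a < c ∧
          ((f.map (mapRingHom (evalRingHom (0 : K)))).coeff b).coeff a ≠ 0 := by
        by_contra hA
        push Not at hA
        have hdvd : C (X ^ c) ∣ f.map (mapRingHom (evalRingHom (0 : K))) := by
          rw [C_dvd_iff_dvd_coeff]
          intro b
          rw [X_pow_dvd_iff]
          intro a ha
          exact hA a b ha
        obtain ⟨f', hf'⟩ := hdvd
        have hco : ∀ a b : ℕ, ((f.map (mapRingHom (evalRingHom (0 : K)))).coeff b).coeff (a + c) =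
            (f'.coeff b).coeff a := by
          intro a b
          rw [hf', coeff_C_mul, coeff_X_pow_mul]
        have hz : f' = 0 := by
          refine hinj2 f' ?_ ?_
          · intro a b hab
            rw [← hco] at hab
            have h3 := in_spec hf _ _ hab
            refine ⟨(a + c, b), ⟨h3, Nat.le_add_left _ _⟩, ?_⟩
            simp
          · rintro (i | j)
            · have h3 := vo_spec hV (hVO (Sum.inl (Sum.inr i)))
              simp only [Sum.elim_inl, Sum.elim_inr, eval_C, eval_zero] at h3 ⊢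
              rw [hf'] at h3
              refine hV.mulC (X ^ c) ?_ h3
              rw [eval_pow, eval_X]
              exact pow_ne_zero _ (hs.ne_zero _)
            · have h3 := vo_spec hV (hVO (Sum.inr (Sum.inr j)))
              simp only [Sum.elim_inr, eval_C] at h3 ⊢
              rw [hf'] at h3
              refine hV.mulC (X ^ c) ?_ h3
              rw [eval_pow, eval_X]
              exact pow_ne_zero _ (hs.ne_zero _)
        exact hne (by rw [hf', hz, mul_zero])
      obtain ⟨a0, b0, ha0, hab0⟩ := hA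
      set g : K[X][X][X] := f.map (compRingHom (C X * X)) with hg
      have hgc : ∀ a b : ℕ, (g.coeff b).coeff a = (f.coeff b).coeff a * X ^ a := by
        intro a b
        rw [hg, coeff_map, coe_compRingHom_apply, comp_C_mul_X_coeff]
      have hPex : ∃ N : ℕ, ¬ ∀ a b : ℕ, X ^ N ∣ (g.coeff b).coeff a := by
        refine ⟨a0 + 1, fun h => ?_⟩
        have h3 := h a0 b0
        rw [hgc, mul_comm, pow_succ] at h3
        have h4 := (mul_dvd_mul_iff_left (pow_ne_zero a0 (X_ne_zero (R := K)))).1 h3
        rw [X_dvd_iff] at h4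
        rw [coeff_map, coe_mapRingHom, coeff_map, coe_evalRingHom, ← coeff_zero_eq_eval_zero] at hab0
        exact hab0 h4
      obtain ⟨N, hN, hmin⟩ : ∃ N : ℕ, (¬ ∀ a b : ℕ, X ^ N ∣ (g.coeff b).coeff a) ∧
          ∀ n < N, ∀ a b : ℕ, X ^ n ∣ (g.coeff b).coeff a := by
        refine ⟨Nat.find hPex, Nat.find_spec hPex, fun n hn => ?_⟩
        have := Nat.find_min hPex hn
        push Not at this
        exact this
      have hNa : N ≤ a0 + 1 := by
        by_contra hlt
        push Not at hlt
        have h3 := hmin _ hlt a0 b0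
        rw [hgc, mul_comm, pow_succ] at h3
        have h4 := (mul_dvd_mul_iff_left (pow_ne_zero a0 (X_ne_zero (R := K)))).1 h3
        rw [X_dvd_iff] at h4
        rw [coeff_map, coe_mapRingHom, coeff_map, coe_evalRingHom, ← coeff_zero_eq_eval_zero] at hab0
        exact hab0 h4
      have hN0 : N ≠ 0 := by
        rintro rfl
        exact hN fun a b => by simp
      obtain ⟨n, rfl⟩ := Nat.exists_eq_succ_of_ne_zero hN0
      obtain ⟨g', hg'⟩ := (CC_dvd_iff (X ^ n) g).2 (hmin n (Nat.lt_succ_self n))
      have hg'c : ∀ a b : ℕ, (f.coeff b).coeff a * X ^ a = X ^ n * (g'.coeff b).coeff a := by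
        intro a b
        rw [← hgc, hg', coeff_CC_mul]
      have hXn : (X ^ n : K[X]) ≠ 0 := pow_ne_zero _ X_ne_zero
      have hz : g'.map (mapRingHom (evalRingHom (0 : K))) = 0 := by
        refine hinj1 _ ?_ ?_
        · intro a b hab
          rw [coeff_map, coe_mapRingHom, coeff_map, coe_evalRingHom, ← coeff_zero_eq_eval_zero] at hab
          have han : a ≤ n := by
            by_contra hlt
            push Not at hlt
            have h3 := hg'c a b
            obtain ⟨k, rfl⟩ := Nat.exists_eq_add_of_lt hlt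
            rw [show n + k + 1 = n + (k + 1) by ring, pow_add, mul_left_comm] at h3
            have h4 := mul_left_cancel₀ hXn h3
            have h5 : (g'.coeff b).coeff (n + k + 1) =
                (f.coeff b).coeff (n + (k + 1)) * X ^ (k + 1) := h4.symm
            refine hab ?_
            rw [← X_dvd_iff, h5, pow_succ]
            exact (dvd_mul_left X (X ^ k)).mul_left _
          refine ⟨hf a b fun h0 => ?_, by show a < c; omega⟩
          have h3 := hg'c a b
          rw [h0, zero_mul] at h3
          rw [(mul_eq_zero.1 h3.symm).resolve_left hXn] at hab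
          exact hab (coeff_zero 0)
        · rintro (i | j)
          · have h3 := hV.substX X (hVO (Sum.inl (Sum.inl i)))
            rw [← hg, hg'] at h3
            have h4 := vo_spec hV (vo_smul hV hXn h3)
            simpa using h4
          · have h3 := hV.substX X (hVO (Sum.inr (Sum.inl j)))
            rw [← hg, hg'] at h3
            have h4 := vo_spec hV (vo_smul hV hXn h3)
            simpa using h4
      refine hN fun a b => ?_
      have h3 := congrArg (fun F : K[X][X] => (F.coeff b).coeff a) hz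
      simp only [coeff_map, coe_mapRingHom, coeff_zero, coe_evalRingHom] at h3
      rw [← coeff_zero_eq_eval_zero, ← X_dvd_iff] at h3
      rw [hg', coeff_CC_mul, pow_succ]
      exact mul_dvd_mul_left _ h3
  refine (hM ?_ ?_).1 hEm
  · rw [ms_sum, ms_fam, ms_fam, ms_fam]
  · rw [ms_sum, ms_fam, ms_fam, ms_fam]

theorem cutV : S_CutV := by
  intro hV hG hE hD hM
  refine ⟨cutV1 hV hG hE hD hM, ?_⟩
  rintro c W1 W2 M1 M2 S S1 S2 hS1 hS2 ⟨T1, hT1S, hT1c, hT1⟩ ⟨T2, hT2S, hT2c, hT2⟩
  classical
  have hinj : Function.Injective fun p : ℕ × ℕ => (p.1 + c, p.2) := by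
    intro p q h
    simp only [Prod.mk.injEq] at h
    exact Prod.ext (by omega) h.2
  have hdisj : Disjoint T1 (T2.image fun p : ℕ × ℕ => (p.1 + c, p.2)) := by
    rw [Finset.disjoint_left]
    intro p hp hp'
    obtain ⟨q, _, rfl⟩ := Finset.mem_image.1 hp'
    have := (hS1 _ (hT1S (Finset.mem_coe.2 hp))).2
    simp only at this
    omega
  refine ⟨T1 ∪ T2.image fun p : ℕ × ℕ => (p.1 + c, p.2), ?_, ?_, ?_⟩
  · intro p hp
    rw [Finset.coe_union] at hp
    rcases hp with hp | hp
    · exact (hS1 p (hT1S hp)).1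
    · obtain ⟨q, hq, rfl⟩ := Finset.mem_image.1 (Finset.mem_coe.1 hp)
      exact hS2 q (hT2S (Finset.mem_coe.2 hq))
  · rw [Finset.card_union_of_disjoint hdisj, Finset.card_image_of_injective _ hinj, hT1c, hT2c,
      Pool.Agent.TH2.NU.condM_add, Pool.Agent.TH2.NU.condM_add]
    ring
  · refine cutV1 hV hG hE hD hM c W1 W2 M1 M2 _ ↑T1 ↑T2 (Finset.finite_toSet _) ?_ ?_ hT1 hT2
    · intro p hp hpc
      rw [Finset.coe_union] at hp
      rcases hp with hp | hp
      · exact hp
      · obtain ⟨q, hq, rfl⟩ := Finset.mem_image.1 (Finset.mem_coe.1 hp)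
        simp only at hpc
        omega
    · intro p hp hpc
      rw [Finset.coe_union] at hp
      rcases hp with hp | hp
      · have := (hS1 p (hT1S hp)).2
        omega
      · obtain ⟨q, hq, rfl⟩ := Finset.mem_image.1 (Finset.mem_coe.1 hp)
        simpa using hq

end Q187.CHC
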