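import Pool.Agent.H200C.Stm

/-! # CH4: degenerations. -/

set_option autoImplicit false

namespace Q187.CHC

open Finset Polynomial Pool.Agent.H200C

/-- The coefficients of a combination of monomials. -/
theorem coeff_comb {R : Type} [CommRing R] {J : Type} [Fintype J] [DecidableEq J]
    (e : J → ℕ × ℕ) (c : J → R) (a b : ℕ) :
    ((∑ j, C (C (c j)) * (C (X ^ (e j).1) * X ^ (e j).2) : R[X][X]).coeff b).coeff a =
      ∑ j, if e j = (a, b) then c j else 0 := by
  rw [finsetSum_coeff, finsetSum_coeff]
  refine Finset.sum_congr rfl fun j _ => ?_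
  rw [coeff_C_mul, coeff_C_mul, coeff_C_mul, coeff_X_pow]
  by_cases hb : b = (e j).2
  · rw [if_pos hb, mul_one, coeff_X_pow]
    by_cases ha : a = (e j).1
    · rw [if_pos ha, mul_one, if_pos]
      rw [ha, hb]
    · rw [if_neg ha, mul_zero, if_neg]
      intro h
      exact ha (by rw [h])
  · rw [if_neg hb, mul_zero, coeff_zero, mul_zero, if_neg]
    intro h
    exact hb (by rw [h])

/-- A polynomial with exponents in a finite set is a combination of monomials. -/
theorem eq_comb {R : Type} [CommRing R] {S : Set (ℕ × ℕ)} [Fintype S] {f : R[X][X]} (hf : In S f) :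
    f = ∑ p : S, C (C ((f.coeff p.1.2).coeff p.1.1)) * (C (X ^ p.1.1) * X ^ p.1.2) := by
  classical
  ext b a
  rw [coeff_comb (fun p : S => p.1) (fun p : S => (f.coeff p.1.2).coeff p.1.1) a b]
  by_cases hab : (a, b) ∈ S
  · rw [Finset.sum_eq_single (⟨(a, b), hab⟩ : S)]
    · simp
    · intro q _ hq
      rw [if_neg]
      intro h
      exact hq (Subtype.ext h)
    · intro h
      exact absurd (Finset.mem_univ _) h
  · have h0 : (f.coeff b).coeff a = 0 := by
      by_contra h
      exact hab (hf a b h)
    rw [h0, Finset.sum_eq_zero]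
    intro q _
    rw [if_neg]
    intro h
    exact hab (h ▸ q.2)

theorem comb_in {R : Type} [CommRing R] {S : Set (ℕ × ℕ)} [Fintype S] (c : S → R) :
    In S (∑ p : S, C (C (c p)) * (C (X ^ p.1.1) * X ^ p.1.2) : R[X][X]) := by
  classical
  intro a b h
  rw [coeff_comb (fun p : S => p.1) c a b] at h
  obtain ⟨q, _, hq⟩ := Finset.exists_ne_zero_of_sum_ne_zero h
  by_contra hab
  refine hq (if_neg fun h' => hab ?_)
  rw [← h']
  exact q.2

theorem comb_coeff {R : Type} [CommRing R] {S : Set (ℕ × ℕ)} [Fintype S] (c : S → R) (q : S) :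
    ((∑ p : S, C (C (c p)) * (C (X ^ p.1.1) * X ^ p.1.2) : R[X][X]).coeff q.1.2).coeff q.1.1 =
      c q := by
  classical
  rw [coeff_comb (fun p : S => p.1) c q.1.1 q.1.2, Finset.sum_eq_single q]
  · simp
  · intro r _ hr
    rw [if_neg]
    intro h
    exact hr (Subtype.ext h)
  · intro h
    exact absurd (Finset.mem_univ _) h

/-- Over `K[t]` the only solution is zero. -/
theorem int_zero (hV : VOF) {K : Type} [Field K] {ι J : Type} [Fintype J] (m : ι → ℕ)
    (x y : ι → K[X]) (g : J → K[X][X][X])
    (h : ∀ c : J → K[X], (∀ i, VO (m i) (x i) (y i) (∑ j, C (C (c j)) * g j)) →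
      ∀ j, (c j).coeff 0 = 0) (c : J → K[X])
    (hc : ∀ i, VO (m i) (x i) (y i) (∑ j, C (C (c j)) * g j)) : c = 0 := by
  have key : ∀ n : ℕ, ∀ c : J → K[X], (∀ i, VO (m i) (x i) (y i) (∑ j, C (C (c j)) * g j)) →
      ∀ j, X ^ n ∣ c j := by
    intro n
    induction n with
    | zero => intro c _ j; simp
    | succ n ih =>
      intro c hc j
      have h0 : ∀ j, X ∣ c j := fun j => X_dvd_iff.2 (h c hc j)
      choose c' hc' using h0
      have hc2 : ∀ i, VO (m i) (x i) (y i) (∑ j, C (C (c' j)) * g j) := by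
        intro i a k hak
        have h1 := hc i a k hak
        have h2 : (∑ j, C (C (c j)) * g j : K[X][X][X]) =
            C (C X) * ∑ j, C (C (c' j)) * g j := by
          rw [Finset.mul_sum]
          refine Finset.sum_congr rfl fun j _ => ?_
          rw [hc' j, C_mul, C_mul, mul_assoc]
        rw [h2, hV.smul] at h1
        exact (mul_eq_zero.1 h1).resolve_left X_ne_zero
      obtain ⟨r, hr⟩ := ih c' hc2 j
      exact ⟨r, by rw [hc' j, hr, pow_succ']; ring⟩
  funext j
  by_contra hne
  have hd := key ((c j).natDegree + 1) c hc j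
  have := natDegree_le_of_dvd hd hne
  rw [natDegree_X_pow] at this
  omega

theorem deg1 (hV : VOF) : Deg := by
  intro K _ ι J _ m x y g h c hc
  classical
  obtain ⟨b, hb⟩ := IsLocalization.exist_integer_multiples_of_finite (nonZeroDivisors K[X]) c
  choose c' hc' using hb
  have hb0 : (b : K[X]) ≠ 0 := nonZeroDivisors.ne_zero b.2
  have hφb : algebraMap K[X] (FractionRing K[X]) b ≠ 0 := by
    intro h0
    exact hb0 (IsFractionRing.injective K[X] (FractionRing K[X]) (by rw [h0, map_zero]))
  have hc1 : ∀ j, algebraMap K[X] (FractionRing K[X]) (c' j) =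
      algebraMap K[X] (FractionRing K[X]) b * c j := by
    intro j
    rw [hc' j, Algebra.smul_def]
  have hz : c' = 0 := by
    refine int_zero hV m x y g h c' fun i a k hak => ?_
    have h1 := hV.map (algebraMap K[X] (FractionRing K[X])) (∑ j, C (C (c' j)) * g j) (x i) (y i) a k
    have h2 : (∑ j, C (C (c' j)) * g j : K[X][X][X]).map
        (mapRingHom (algebraMap K[X] (FractionRing K[X]))) =
        C (C (algebraMap K[X] (FractionRing K[X]) b)) * ∑ j, C (C (c j)) *
          (g j).map (mapRingHom (algebraMap K[X] (FractionRing K[X]))) := by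
      rw [Polynomial.map_sum, Finset.mul_sum]
      refine Finset.sum_congr rfl fun j _ => ?_
      rw [Polynomial.map_mul, map_C, coe_mapRingHom, map_C, hc1 j, C_mul, C_mul, mul_assoc]
    rw [h2, hV.smul, hc i a k hak, mul_zero] at h1
    exact IsFractionRing.injective K[X] (FractionRing K[X]) (by rw [← h1, map_zero])
  funext j
  have h3 := hc1 j
  rw [hz, Pi.zero_apply, map_zero] at h3
  exact (mul_eq_zero.1 h3.symm).resolve_left hφb

theorem deg : S_Deg := by
  intro hV
  refine ⟨deg1 hV, ?_⟩
  intro K _ ι m x y S hS h F hF hVO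
  classical
  have : Fintype S := hS.fintype
  have hcomb := eq_comb hF
  have hz := deg1 hV m x y (fun p : S => (C (X ^ p.1.1) * X ^ p.1.2 : K[X][X][X])) ?_
    (fun p : S => (F.coeff p.1.2).coeff p.1.1) ?_
  · rw [hcomb]
    refine Finset.sum_eq_zero fun p _ => ?_
    have := congrFun hz p
    simp only [Pi.zero_apply] at this
    rw [this, C_0, C_0, zero_mul]
  · intro c hc j
    have h1 := h _ (comb_in c) hc
    have h2 := comb_coeff c j
    have h3 := congrArg (fun f : K[X][X] => (f.coeff j.1.2).coeff j.1.1) h1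
    simp only [coeff_map, coe_mapRingHom, coeff_zero] at h3
    rw [h2, coe_evalRingHom, ← coeff_zero_eq_eval_zero] at h3
    exact h3
  · intro i a k hak
    have h1 := hVO i a k hak
    rw [hcomb] at h1
    have h2 : (∑ j : S, C (C ((F.coeff j.1.2).coeff j.1.1)) *
        (C (X ^ j.1.1) * X ^ j.1.2 : K[X][X][X]).map
          (mapRingHom (algebraMap K[X] (FractionRing K[X])))) =
        ∑ p : S, C (C ((F.coeff p.1.2).coeff p.1.1)) *
          (C (X ^ p.1.1) * X ^ p.1.2 : (FractionRing K[X])[X][X]) := by
      refine Finset.sum_congr rfl fun p _ => ?_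
      rw [Polynomial.map_mul, map_C, Polynomial.map_pow, map_X, coe_mapRingHom, Polynomial.map_pow,
        map_X]
    rw [h2]
    exact h1

end Q187.CHC
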