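import Pool.Agent.Q187.CHC.Xch

/-! # CH12: division by `z - p(x)`. -/

set_option autoImplicit false

namespace Q187.CHC

open Finset Polynomial Pool.Agent.H200C

section

variable {R : Type} [CommRing R]

theorem In_zero (S : Set (ℕ × ℕ)) : In S (0 : R[X][X]) := by
  intro a b h
  simp at h

theorem In_add {S : Set (ℕ × ℕ)} {f g : R[X][X]} (hf : In S f) (hg : In S g) : In S (f + g) := by
  intro a b h
  rw [coeff_add, coeff_add] at h
  by_cases h1 : (f.coeff b).coeff a = 0
  · refine hg a b fun h2 => h ?_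
    rw [h1, h2, add_zero]
  · exact hf a b h1

theorem In_CC {S : Set (ℕ × ℕ)} {f : R[X][X]} (c : R) (hf : In S f) : In S (C (C c) * f) := by
  intro a b h
  rw [coeff_C_mul, coeff_C_mul] at h
  exact hf a b fun h0 => h (by rw [h0, mul_zero])

theorem In_sum {S : Set (ℕ × ℕ)} {J : Type} (s : Finset J) (f : J → R[X][X])
    (h : ∀ j ∈ s, In S (f j)) : In S (∑ j ∈ s, f j) := by
  classical
  induction s using Finset.induction_on with
  | empty => rw [Finset.sum_empty]; exact In_zero S
  | insert a s ha ih =>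
    rw [Finset.sum_insert ha]
    exact In_add (h a (Finset.mem_insert_self _ _))
      (ih fun j hj => h j (Finset.mem_insert_of_mem hj))

theorem In_mon {S : Set (ℕ × ℕ)} {a b : ℕ} (h : (a, b) ∈ S) : In S (C (X ^ a) * X ^ b : R[X][X]) := by
  intro a' b' h'
  rw [coeff_C_mul, coeff_X_pow] at h'
  by_cases hb : b' = b
  · rw [if_pos hb, mul_one, coeff_X_pow] at h'
    by_cases ha : a' = a
    · rw [ha, hb]; exact h
    · rw [if_neg ha] at h'
      exact absurd rfl h'
  · rw [if_neg hb, mul_zero, coeff_zero] at h'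
    exact absurd rfl h'

theorem In_Tr_row {d : ℕ} {f : R[X][X]} (hf : In (Tr d) f) {b : ℕ} (h : f.coeff b ≠ 0) :
    (f.coeff b).natDegree + b ≤ d :=
  hf (f.coeff b).natDegree b (by
    rw [coeff_natDegree]
    exact leadingCoeff_ne_zero.2 h)

/-- The property of the first part for `H = 1`. -/
def Good (p : R[X]) (e d : ℕ) (f : R[X][X]) : Prop := ∃ r q : R[X][X], f = r + (X - C p) * q ∧
  (In (Tr d) r ∧ ∀ a b : ℕ, (r.coeff b).coeff a ≠ 0 → a < e) ∧ In (Tr (d - e)) q

theorem Good_zero (p : R[X]) (e d : ℕ) : Good p e d 0 :=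
  ⟨0, 0, by simp, ⟨In_zero _, fun a b h => by simp at h⟩, In_zero _⟩

theorem Good_add {p : R[X]} {e d : ℕ} {f g : R[X][X]} (hf : Good p e d f) (hg : Good p e d g) :
    Good p e d (f + g) := by
  obtain ⟨r, q, h, ⟨h1, h2⟩, h3⟩ := hf
  obtain ⟨r', q', h', ⟨h1', h2'⟩, h3'⟩ := hg
  refine ⟨r + r', q + q', by rw [h, h']; ring, ⟨In_add h1 h1', ?_⟩, In_add h3 h3'⟩
  exact In_add (S := {p : ℕ × ℕ | p.1 < e}) h2 h2'

theorem Good_CC {p : R[X]} {e d : ℕ} {f : R[X][X]} (c : R) (hf : Good p e d f) :
    Good p e d (C (C c) * f) := by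
  obtain ⟨r, q, h, ⟨h1, h2⟩, h3⟩ := hf
  refine ⟨C (C c) * r, C (C c) * q, by rw [h]; ring, ⟨In_CC c h1, ?_⟩, In_CC c h3⟩
  exact In_CC (S := {p : ℕ × ℕ | p.1 < e}) c h2

theorem Good_sum {p : R[X]} {e d : ℕ} {J : Type} (s : Finset J) (f : J → R[X][X])
    (h : ∀ j ∈ s, Good p e d (f j)) : Good p e d (∑ j ∈ s, f j) := by
  classical
  induction s using Finset.induction_on with
  | empty => rw [Finset.sum_empty]; exact Good_zero p e d
  | insert a s ha ih =>
    rw [Finset.sum_insert ha]
    exact Good_add (h a (Finset.mem_insert_self _ _))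
      (ih fun j hj => h j (Finset.mem_insert_of_mem hj))

theorem Good_of_mon {p : R[X]} {e d : ℕ} (h : ∀ a b : ℕ, a + b ≤ d →
    Good p e d (C (X ^ a) * X ^ b)) {f : R[X][X]} (hf : In (Tr d) f) : Good p e d f := by
  have h1 : In (↑(expo f) : Set (ℕ × ℕ)) f := by
    intro a b h
    exact Finset.mem_coe.2 ((mem_expo f (a, b)).2 h)
  rw [eq_comb h1]
  refine Good_sum _ _ fun j _ => Good_CC _ (h _ _ ?_)
  exact hf j.1.1 j.1.2 ((mem_expo f j.1).1 (Finset.mem_coe.1 j.2))

/-- The relation for the leading monomial. -/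
theorem lead_rel (p : R[X]) (e : ℕ) (he : p.natDegree = e) (u : R) (hu : u * p.coeff e = 1) :
    (X ^ e : R[X]) = C u * p - ∑ i ∈ Finset.range e, C (u * p.coeff i) * X ^ i := by
  have h1 : p = ∑ i ∈ Finset.range (e + 1), C (p.coeff i) * X ^ i := by
    rw [← he]
    exact p.as_sum_range_C_mul_X_pow
  rw [Finset.sum_range_succ] at h1
  have h2 : C u * p = ∑ i ∈ Finset.range e, C (u * p.coeff i) * X ^ i + X ^ e := by
    conv_lhs => rw [h1]
    rw [mul_add, Finset.mul_sum]
    congr 1
    · refine Finset.sum_congr rfl fun i _ => ?_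
      rw [C_mul, mul_assoc]
    · rw [← mul_assoc, ← C_mul, hu, C_1, one_mul]
  rw [h2]
  ring

theorem Good_mon (p : R[X]) (e : ℕ) (he1 : 1 ≤ e) (he : p.natDegree = e) (u : R)
    (hu : u * p.coeff e = 1) (d : ℕ) (hd : e ≤ d) :
    ∀ a b : ℕ, a + b ≤ d → Good p e d (C (X ^ a) * X ^ b) := by
  intro a
  induction a using Nat.strong_induction_on with
  | _ a ih =>
    intro b hab
    by_cases ha : a < e
    · refine ⟨C (X ^ a) * X ^ b, 0, by simp, ⟨In_mon hab, ?_⟩, In_zero _⟩
      exact In_mon (S := {p : ℕ × ℕ | p.1 < e}) ha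
    · push Not at ha
      obtain ⟨a', rfl⟩ := Nat.exists_eq_add_of_le ha
      have h1 : (C (X ^ (e + a')) * X ^ b : R[X][X]) =
          C (C u) * (C (X ^ a') * X ^ (b + 1)) +
          (∑ i ∈ Finset.range e, C (C (-(u * p.coeff i))) * (C (X ^ (a' + i)) * X ^ b) +
          (X - C p) * (C (C (-u)) * (C (X ^ a') * X ^ b))) := by
        have h2 := lead_rel p e he u hu
        rw [pow_add (X : R[X]) e a', C_mul, h2, C_sub, C_mul, map_sum]
        have h3 : ∀ i, (C (C (-(u * p.coeff i))) * (C (X ^ (a' + i)) * X ^ b) : R[X][X]) =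
            -(C (C (u * p.coeff i) * X ^ i)) * (C (X ^ a') * X ^ b) := by
          intro i
          rw [pow_add, C_mul, C_mul (a := C (u * p.coeff i)) (b := X ^ i), C_neg, C_neg]
          ring
        rw [Finset.sum_congr rfl fun i _ => h3 i, ← Finset.sum_mul, Finset.sum_neg_distrib, C_neg,
          C_neg, pow_succ]
        ring
      rw [h1]
      refine Good_add (Good_CC _ (ih a' (by omega) (b + 1) (by omega))) (Good_add ?_ ?_)
      · refine Good_sum _ _ fun i hi => Good_CC _ (ih (a' + i) ?_ b ?_)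
        · rw [Finset.mem_range] at hi
          omega
        · rw [Finset.mem_range] at hi
          omega
      · refine ⟨0, _, (zero_add _).symm, ⟨In_zero _, fun a b h => by simp at h⟩, ?_⟩
        refine In_CC _ (In_mon ?_)
        show a' + b ≤ d - e
        omega

theorem part1 (p : R[X]) (e : ℕ) (he1 : 1 ≤ e) (he : p.natDegree = e) (u : R)
    (hu : u * p.coeff e = 1) (H d : ℕ) (f : R[X][X]) (hH : e * H ≤ d) (hf : In (Tr d) f) :
    ∃ (r : ℕ → R[X][X]) (f' : R[X][X]),
    f = ∑ k ∈ range H, (X - C p) ^ k * r k + (X - C p) ^ H * f' ∧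
    (∀ k < H, In (Tr (d - e * k)) (r k) ∧ ∀ a b : ℕ, ((r k).coeff b).coeff a ≠ 0 → a < e) ∧
    In (Tr (d - e * H)) f' := by
  induction H with
  | zero => exact ⟨fun _ => 0, f, by simp, fun k hk => by omega, by simpa using hf⟩
  | succ H ih =>
    have hmul : e * (H + 1) = e * H + e := by ring
    obtain ⟨r, f', h1, h2, h3⟩ := ih (by omega)
    obtain ⟨r', q, h4, h5, h6⟩ := Good_of_mon
      (Good_mon p e he1 he u hu (d - e * H) (by omega)) h3
    refine ⟨fun k => if k < H then r k else r', q, ?_, ?_, ?_⟩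
    · rw [Finset.sum_range_succ]
      beta_reduce
      rw [if_neg (lt_irrefl H)]
      have h7 : ∑ k ∈ Finset.range H, (X - C p) ^ k * (if k < H then r k else r') =
          ∑ k ∈ Finset.range H, (X - C p) ^ k * r k :=
        Finset.sum_congr rfl fun k hk => by rw [if_pos (Finset.mem_range.1 hk)]
      rw [h7, pow_succ]
      conv_lhs => rw [h1, h4]
      ring
    · intro k hk
      by_cases hkH : k < H
      · simp only [if_pos hkH]
        exact h2 k hkH
      · have : k = H := by omega
        subst this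
        simp only [lt_irrefl, if_false]
        exact h5
    · rw [hmul, Nat.sub_add_eq]
      exact h6

theorem In_Tr_mul (p : R[X]) (e : ℕ) (he1 : 1 ≤ e) (he : p.natDegree = e) {m : ℕ} {f : R[X][X]}
    (hf : In (Tr m) f) : In (Tr (m + e)) ((X - C p) * f) := by
  intro a b h
  rw [sub_mul, coeff_sub, coeff_sub, coeff_C_mul] at h
  show a + b ≤ m + e
  by_cases h1 : ((X * f : R[X][X]).coeff b).coeff a = 0
  · have h2 : (p * f.coeff b).coeff a ≠ 0 := by
      intro h0
      exact h (by rw [h1, h0, sub_zero])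
    have h3 : f.coeff b ≠ 0 := by
      intro h0
      rw [h0, mul_zero, coeff_zero] at h2
      exact h2 rfl
    have h4 := In_Tr_row hf h3
    have h5 := le_natDegree_of_ne_zero h2
    have h6 := natDegree_mul_le (p := p) (q := f.coeff b)
    omega
  · cases b with
    | zero =>
      rw [mul_coeff_zero, coeff_X_zero, zero_mul, coeff_zero] at h1
      exact absurd rfl h1
    | succ b =>
      rw [coeff_X_mul] at h1
      have : a + b ≤ m := hf a b h1
      omega

theorem part5 (p : R[X]) (e : ℕ) (he1 : 1 ≤ e) (he : p.natDegree = e) (H m : ℕ) (f : R[X][X])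
    (hf : In (Tr m) f) : In (Tr (m + e * H)) ((X - C p) ^ H * f) := by
  induction H with
  | zero => simpa using hf
  | succ H ih =>
    rw [pow_succ', mul_assoc, show m + e * (H + 1) = (m + e * H) + e by ring]
    exact In_Tr_mul p e he1 he ih

theorem part3 (p : R[X]) (e : ℕ) (he1 : 1 ≤ e) (he : p.natDegree = e) (d : ℕ) (r : R[X][X])
    (hr : In (Tr d) r) : (r.eval p).natDegree ≤ e * d := by
  rw [eval_eq_sum_range]
  refine natDegree_sum_le_of_forall_le _ _ fun b _ => ?_
  by_cases h : r.coeff b = 0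
  · rw [h, zero_mul, natDegree_zero]
    exact Nat.zero_le _
  · have h1 := In_Tr_row hr h
    refine natDegree_mul_le.trans ?_
    have h2 : (p ^ b).natDegree ≤ b * e := by
      rw [← he]
      exact natDegree_pow_le
    have h3 : (r.coeff b).natDegree ≤ e * (r.coeff b).natDegree := Nat.le_mul_of_pos_left _ he1
    have h4 := Nat.mul_le_mul_left e h1
    calc (r.coeff b).natDegree + (p ^ b).natDegree ≤ e * (r.coeff b).natDegree + b * e :=
          Nat.add_le_add h3 h2
      _ = e * ((r.coeff b).natDegree + b) := by ring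
      _ ≤ e * d := h4

theorem part2 [IsDomain R] (p : R[X]) (e : ℕ) (he1 : 1 ≤ e) (he : p.natDegree = e) (r : R[X][X])
    (hr : ∀ a b : ℕ, (r.coeff b).coeff a ≠ 0 → a < e) (h0 : r.eval p = 0) : r = 0 := by
  by_contra hne
  have hp : p ≠ 0 := by
    rintro rfl
    rw [natDegree_zero] at he
    omega
  have hlead : r.coeff r.natDegree ≠ 0 := by
    rw [coeff_natDegree]
    exact leadingCoeff_ne_zero.2 hne
  have hrow : ∀ b, (r.coeff b).natDegree < e := by
    intro b
    by_cases h : r.coeff b = 0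
    · rw [h, natDegree_zero]
      omega
    · exact hr _ b (by
        rw [coeff_natDegree]
        exact leadingCoeff_ne_zero.2 h)
  have hdeg : ∀ b, r.coeff b ≠ 0 →
      (r.coeff b * p ^ b).natDegree = (r.coeff b).natDegree + b * e := by
    intro b hb
    rw [natDegree_mul hb (pow_ne_zero _ hp), natDegree_pow, he]
  rw [eval_eq_sum_range, Finset.sum_range_succ] at h0
  have h1 := congrArg (fun q : R[X] => q.coeff ((r.coeff r.natDegree).natDegree +
    r.natDegree * e)) h0
  simp only [coeff_add, coeff_zero] at h1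
  have h2 : (∑ b ∈ Finset.range r.natDegree, r.coeff b * p ^ b).coeff
      ((r.coeff r.natDegree).natDegree + r.natDegree * e) = 0 := by
    rw [finsetSum_coeff]
    refine Finset.sum_eq_zero fun b hb => ?_
    rw [Finset.mem_range] at hb
    by_cases hb0 : r.coeff b = 0
    · rw [hb0, zero_mul, coeff_zero]
    · refine coeff_eq_zero_of_natDegree_lt ?_
      rw [hdeg b hb0]
      have h3 := hrow b
      have h4 : (b + 1) * e ≤ r.natDegree * e := Nat.mul_le_mul_right e hb
      have h5 : (b + 1) * e = b * e + e := by ring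
      omega
  rw [h2, zero_add, ← hdeg _ hlead, coeff_natDegree] at h1
  exact (leadingCoeff_ne_zero.2 (mul_ne_zero hlead (pow_ne_zero _ hp))) h1

theorem part4 [IsDomain R] (p : R[X]) (e : ℕ) (he1 : 1 ≤ e) (he : p.natDegree = e) (u : R)
    (hu : u * p.coeff e = 1) (d : ℕ) (hd : e ≤ d + 1) :
    ∀ n : ℕ, n ≤ e * (d + 1 - e) → ∃ r : R[X][X], In (Tr d) r ∧ r.eval p = X ^ n := by
  intro n
  induction n using Nat.strong_induction_on with
  | _ n ih =>
    intro hn
    have hp : p ≠ 0 := by
      rintro rfl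
      rw [natDegree_zero] at he
      omega
    have hih : ∀ k, ∃ r : R[X][X], In (Tr d) r ∧ (k < n → r.eval p = X ^ k) := by
      intro k
      by_cases hk : k < n
      · obtain ⟨r, h1, h2⟩ := ih k hk (by omega)
        exact ⟨r, h1, fun _ => h2⟩
      · exact ⟨0, In_zero _, fun h => absurd h hk⟩
    choose r hr1 hr2 using hih
    have hdiv : n % e + e * (n / e) = n := Nat.mod_add_div n e
    have hi : n % e < e := Nat.mod_lt _ he1
    have hj : n / e ≤ d + 1 - e := Nat.div_le_of_le_mul hn
    have hF : (X ^ (n % e) * p ^ (n / e) : R[X]).natDegree = n := by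
      rw [natDegree_mul (pow_ne_zero _ X_ne_zero) (pow_ne_zero _ hp), natDegree_X_pow,
        natDegree_pow, he, Nat.mul_comm (n / e) e]
      exact hdiv
    have hFn : (X ^ (n % e) * p ^ (n / e) : R[X]).coeff n = p.coeff e ^ (n / e) := by
      have h5 := coeff_natDegree (p := (X ^ (n % e) * p ^ (n / e) : R[X]))
      rw [hF] at h5
      rw [h5, leadingCoeff_mul, leadingCoeff_X_pow, one_mul, leadingCoeff_pow, leadingCoeff, he]
    have hexp := (X ^ (n % e) * p ^ (n / e) : R[X]).as_sum_range_C_mul_X_pow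
    rw [hF, Finset.sum_range_succ, hFn] at hexp
    refine ⟨C (C (u ^ (n / e))) * (C (X ^ (n % e)) * X ^ (n / e) +
      ∑ k ∈ Finset.range n, C (C (-(X ^ (n % e) * p ^ (n / e) : R[X]).coeff k)) * r k), ?_, ?_⟩
    · refine In_CC _ (In_add (In_mon ?_) (In_sum _ _ fun k _ => In_CC _ (hr1 k)))
      show n % e + n / e ≤ d
      omega
    · rw [eval_mul, eval_C, eval_add, eval_mul, eval_C, eval_pow, eval_X, eval_finsetSum]
      have h3 : ∑ k ∈ Finset.range n,
          (C (C (-(X ^ (n % e) * p ^ (n / e) : R[X]).coeff k)) * r k).eval p =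
          - ∑ k ∈ Finset.range n, C ((X ^ (n % e) * p ^ (n / e) : R[X]).coeff k) * X ^ k := by
        rw [← Finset.sum_neg_distrib]
        refine Finset.sum_congr rfl fun k hk => ?_
        rw [eval_mul, eval_C, hr2 k (Finset.mem_range.1 hk), C_neg, neg_mul]
      rw [h3]
      have h4 : X ^ (n % e) * p ^ (n / e) +
          -∑ k ∈ Finset.range n, C ((X ^ (n % e) * p ^ (n / e) : R[X]).coeff k) * X ^ k =
          C (p.coeff e ^ (n / e)) * X ^ n := by
        linear_combination hexp
      rw [h4, ← mul_assoc, ← C_mul, ← mul_pow, hu, one_pow, C_1, one_mul]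

end

theorem divC : S_DivC := by
  intro R _ _ p e he1 he hunit
  obtain ⟨w, hw⟩ := hunit
  have hu : (↑w⁻¹ : R) * p.coeff e = 1 := by
    rw [← he, coeff_natDegree, ← hw]
    exact Units.inv_mul w
  refine ⟨part1 p e he1 he _ hu, part2 p e he1 he, part3 p e he1 he,
    fun d n hd hn => part4 p e he1 he _ hu d hd n hn, ?_⟩
  intro H d f hH hf
  have h := part5 p e he1 he H (d - e * H) f hf
  rwa [Nat.sub_add_cancel hH] at h

end Q187.CHC
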