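import Pool.Agent.Q187.CHC.Deg

/-! # CH5: exchange. -/

set_option autoImplicit false

namespace Q187.CHC

open Finset Polynomial Pool.Agent.H200C

theorem tc_zero {R : Type} [CommRing R] (x y : R) (i k : ℕ) : tc (0 : R[X][X]) x y i k = 0 := by
  simp [tc]

theorem tc_sum (hV : VOF) {R : Type} [CommRing R] {J : Type} (s : Finset J) (f : J → R[X][X])
    (x y : R) (i k : ℕ) : tc (∑ j ∈ s, f j) x y i k = ∑ j ∈ s, tc (f j) x y i k := by
  classical
  induction s using Finset.induction_on with
  | empty => simp [tc_zero]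
  | insert a s ha ih => rw [Finset.sum_insert ha, Finset.sum_insert ha, hV.add, ih]

/-- The exponents of a polynomial. -/
noncomputable def expo {R : Type} [CommRing R] (f : R[X][X]) : Finset (ℕ × ℕ) := by
  classical
  exact f.support.biUnion fun b => (f.coeff b).support.image fun a => (a, b)

theorem mem_expo {R : Type} [CommRing R] (f : R[X][X]) (p : ℕ × ℕ) :
    p ∈ expo f ↔ (f.coeff p.2).coeff p.1 ≠ 0 := by
  classical
  unfold expo
  rw [Finset.mem_biUnion]
  constructor
  · rintro ⟨b, hb, h⟩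
    rw [Finset.mem_image] at h
    obtain ⟨a, ha, h⟩ := h
    rw [← h]
    exact mem_support_iff.1 ha
  · intro h
    refine ⟨p.2, ?_, ?_⟩
    · rw [mem_support_iff]
      intro h0
      exact h (by rw [h0, coeff_zero])
    · rw [Finset.mem_image]
      exact ⟨p.1, mem_support_iff.2 h, rfl⟩

section

variable {K : Type} [Field K] {ι : Type} (m : ι → ℕ) (x y : ι → K)

/-- All conditions at once. -/
noncomputable def ev (f : K[X][X]) : (Σ i : ι, Fin (m i) × Fin (m i)) → K := fun q =>
  if (q.2.1 : ℕ) + q.2.2 < m q.1 then tc f (x q.1) (y q.1) q.2.1 q.2.2 else 0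

theorem ev_eq_zero_iff (f : K[X][X]) : ev m x y f = 0 ↔ ∀ i, VO (m i) (x i) (y i) f := by
  constructor
  · intro h i a k hak
    have h1 := congrFun h ⟨i, (⟨a, by omega⟩, ⟨k, by omega⟩)⟩
    simp only [ev, Pi.zero_apply] at h1
    rwa [if_pos hak] at h1
  · intro h
    funext q
    unfold ev
    split_ifs with hq
    · exact h q.1 _ _ hq
    · rfl

theorem ev_comb (hV : VOF) {J : Type} (s : Finset J) (c : J → K) (g : J → K[X][X]) :
    ev m x y (∑ j ∈ s, C (C (c j)) * g j) = ∑ j ∈ s, c j • ev m x y (g j) := by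
  funext q
  rw [Finset.sum_apply]
  unfold ev
  by_cases hq : (q.2.1 : ℕ) + q.2.2 < m q.1
  · rw [if_pos hq, tc_sum hV]
    refine Finset.sum_congr rfl fun j _ => ?_
    rw [hV.smul, Pi.smul_apply, if_pos hq, smul_eq_mul]
  · rw [if_neg hq]
    symm
    refine Finset.sum_eq_zero fun j _ => ?_
    rw [Pi.smul_apply, if_neg hq, smul_zero]

end

theorem xch : S_Xch := by
  intro hV K _ ι _ m x y S n g hg hc
  classical
  have := Fintype.ofFinite ι
  let w : S → ((Σ i : ι, Fin (m i) × Fin (m i)) → K) := fun p =>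
    ev m x y (C (X ^ p.1.1) * X ^ p.1.2)
  have hmem : ∀ j, ev m x y (g j) ∈ Submodule.span K (Set.range w) := by
    intro j
    have h1 : In (↑(expo (g j)) : Set (ℕ × ℕ)) (g j) := by
      intro a b h
      exact Finset.mem_coe.2 ((mem_expo (g j) (a, b)).2 h)
    have h2 : ev m x y (g j) = ∑ p : (↑(expo (g j)) : Set (ℕ × ℕ)),
        (((g j).coeff p.1.2).coeff p.1.1) • ev m x y (C (X ^ p.1.1) * X ^ p.1.2) := by
      conv_lhs => rw [eq_comb h1]
      rw [ev_comb m x y hV]
    rw [h2]
    refine Submodule.sum_mem _ fun p _ => Submodule.smul_mem _ _ ?_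
    refine Submodule.subset_span ⟨⟨p.1, ?_⟩, rfl⟩
    exact hg j p.1.1 p.1.2 ((mem_expo (g j) p.1).1 (Finset.mem_coe.1 p.2))
  have hli : LinearIndependent K fun j => ev m x y (g j) := by
    rw [Fintype.linearIndependent_iff]
    intro c h0 j
    rw [← ev_comb m x y hV, ev_eq_zero_iff] at h0
    exact congrFun (hc c h0) j
  have hn : n ≤ Module.finrank K (Submodule.span K (Set.range w)) := by
    have h1 := finrank_span_eq_card hli
    rw [Fintype.card_fin] at h1
    rw [← h1]
    refine Submodule.finrank_mono (Submodule.span_le.2 ?_)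
    rintro _ ⟨j, rfl⟩
    exact hmem j
  obtain ⟨κ, a, ha, hsp, hli'⟩ := exists_linearIndependent' K w
  have : Finite κ := hli'.finite
  have := Fintype.ofFinite κ
  have hcard : n ≤ (Finset.univ : Finset κ).card := by
    rw [Finset.card_univ, ← finrank_span_eq_card hli', hsp]
    exact hn
  obtain ⟨t, _, ht⟩ := Finset.exists_subset_card_eq hcard
  have hinj : Function.Injective fun k => ((a k : S) : ℕ × ℕ) :=
    fun k l h => ha (Subtype.ext h)
  refine ⟨t.image fun k => ((a k : S) : ℕ × ℕ), ?_, ?_, ?_⟩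
  · intro p hp
    rw [Finset.mem_coe, Finset.mem_image] at hp
    obtain ⟨k, _, rfl⟩ := hp
    exact (a k).2
  · rw [Finset.card_image_of_injective _ hinj, ht]
  · intro f hf hVO
    have h1 := eq_comb hf
    have h0 := (ev_eq_zero_iff m x y f).2 hVO
    rw [h1, ev_comb m x y hV] at h0
    have hex : ∀ p : (↑(t.image fun k => ((a k : S) : ℕ × ℕ)) : Set (ℕ × ℕ)),
        ∃ k, ((a k : S) : ℕ × ℕ) = p.1 := by
      intro p
      obtain ⟨k, _, hk⟩ := Finset.mem_image.1 (Finset.mem_coe.1 p.2)
      exact ⟨k, hk⟩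
    choose e he using hex
    have heinj : Function.Injective e := by
      intro p q h
      refine Subtype.ext ?_
      rw [← he p, ← he q, h]
    have hli2 := hli'.comp e heinj
    have hw : ∀ p : (↑(t.image fun k => ((a k : S) : ℕ × ℕ)) : Set (ℕ × ℕ)),
        ((w ∘ a) ∘ e) p = ev m x y (C (X ^ p.1.1) * X ^ p.1.2) := by
      intro p
      simp only [Function.comp_apply, w]
      rw [he p]
    rw [Fintype.linearIndependent_iff] at hli2
    have h3 := hli2 (fun p => (f.coeff p.1.2).coeff p.1.1) (by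
      rw [← h0]
      refine Finset.sum_congr rfl fun p _ => ?_
      rw [hw p])
    rw [h1]
    refine Finset.sum_eq_zero fun p _ => ?_
    rw [h3 p, C_0, C_0, zero_mul]

end Q187.CHC
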